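import Mathlib

namespace Pool.Agent.H.MP_68ef1b_nt

open Finset Polynomial

theorem dig_sum (b : ℕ) (i : ℕ) : ∀ (d : ℕ → ℕ) (n : ℕ), (∀ j < n, d j < b) → i < n →
    (∑ j ∈ range n, d j * b ^ j) / b ^ i % b = d i := by
  induction i with
  | zero =>
    intro d n hd hn
    obtain ⟨n, rfl⟩ := Nat.exists_eq_add_one_of_ne_zero hn.ne'
    rw [sum_range_succ']
    simp only [pow_succ, ← mul_assoc, ← sum_mul, pow_zero, mul_one, Nat.div_one,
      Nat.mul_add_mod_self_right]
    exact Nat.mod_eq_of_lt (hd 0 hn)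
  | succ i ih =>
    intro d n hd hn
    obtain ⟨n, rfl⟩ := Nat.exists_eq_add_one_of_ne_zero (by omega : n ≠ 0)
    have h0 := hd 0 (by omega)
    rw [sum_range_succ', pow_succ', ← Nat.div_div_eq_div_mul]
    simp only [pow_succ, ← mul_assoc, ← sum_mul, pow_zero, mul_one]
    rw [add_comm, Nat.add_mul_div_right _ _ (by omega), Nat.div_eq_of_lt h0, zero_add]
    exact ih (fun j => d (j + 1)) n (fun j hj => hd _ (by omega)) (by omega)

theorem sum_dig (b n Y : ℕ) : ∑ j ∈ range n, Y / b ^ j % b * b ^ j = Y % b ^ n := by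
  induction n with
  | zero => simp [Nat.mod_one]
  | succ n ih => rw [sum_range_succ, ih, Nat.mod_pow_succ]; ring

theorem uniq (b : ℤ) (n : ℕ) : ∀ p : ℤ[X], p.natDegree ≤ n → (∀ i, |p.coeff i| < b) →
    p.eval b = 0 → p = 0 := by
  induction n with
  | zero =>
    intro p hn _ h
    rw [eq_C_of_natDegree_le_zero hn] at h ⊢
    rw [eval_C] at h
    rw [h, C_0]
  | succ n ih =>
    intro p hn hb h
    have e := divX_mul_X_add p
    rw [← e, eval_add, eval_mul, eval_X, eval_C] at h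
    have h0 : p.coeff 0 = 0 :=
      Int.eq_zero_of_abs_lt_dvd ⟨-eval b p.divX, by linarith⟩ (hb 0)
    have b0 : b ≠ 0 := by have := hb 0; rw [h0] at this; simp at this; omega
    rw [h0, add_zero, mul_eq_zero] at h
    rw [← e, h0, ih p.divX (by rw [natDegree_divX_eq_natDegree_tsub_one]; omega)
      (fun i => by rw [coeff_divX]; exact hb _) (h.resolve_right b0)]
    simp

def b : ℕ := 2 ^ 48
def R (n : ℕ) : ℕ := (b ^ n - 1) / (b - 1)

theorem R_eq (n : ℕ) : R n = ∑ j ∈ range n, b ^ j := (Nat.geomSum_eq (by norm_num [b]) _).symm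

def ok (BR TOP T CR V : ℕ) : Bool :=
  V + BR < TOP && (V + BR) &&& T == 0 && (CR - (V + BR)) &&& T == T

def OK (n V : ℕ) : Prop :=
  ok (12822 * R n) (b ^ n) (2 ^ 47 * R n) ((2 ^ 47 + 25644) * R n) V = true

def dg (n V i : ℕ) : ℕ := (V + 12822 * R n) / b ^ i % b

noncomputable def P (n V : ℕ) : ℤ[X] := ∑ i ∈ range n, monomial i ((dg n V i : ℤ) - 12822)

theorem coeff_P (n V i : ℕ) : (P n V).coeff i = if i < n then (dg n V i : ℤ) - 12822 else 0 := by
  simp only [P, finset_sum_coeff, coeff_monomial, sum_ite_eq', mem_range]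

theorem and_dig (X Y i : ℕ) : (X &&& Y) / b ^ i % b = (X / b ^ i % b) &&& (Y / b ^ i % b) := by
  rw [b, ← pow_mul, Nat.and_div_two_pow, Nat.and_mod_two_pow]

theorem OK_spec {n V : ℕ} (h : OK n V) :
    (∀ i, |(P n V).coeff i| ≤ 12822) ∧ (P n V).natDegree ≤ n ∧ (P n V).eval (b : ℤ) = V := by
  simp only [OK, ok, Bool.and_eq_true, decide_eq_true_eq, beq_iff_eq] at h
  obtain ⟨⟨h1, h2⟩, h3⟩ := h
  have s : ∑ j ∈ range n, dg n V j * b ^ j = V + 12822 * R n := by
    rw [← Nat.mod_eq_of_lt h1]; exact sum_dig _ _ _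
  have T : ∀ i < n, 2 ^ 47 * R n / b ^ i % b = 2 ^ 47 := fun i hi => by
    rw [R_eq, mul_sum]; exact dig_sum b i (fun _ => 2 ^ 47) _ (fun _ _ => by norm_num [b]) hi
  have d1 : ∀ i < n, dg n V i < 2 ^ 47 := fun i hi => by
    have := and_dig (V + 12822 * R n) (2 ^ 47 * R n) i
    rw [h2, T i hi, Nat.zero_div, Nat.zero_mod] at this
    have lt : dg n V i < 2 ^ 48 := Nat.mod_lt _ (by norm_num [b])
    refine Nat.lt_pow_two_of_testBit _ fun j hj => ?_
    rcases hj.eq_or_lt with rfl | hj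
    · have := congrArg (Nat.testBit · 47) this
      simp only [Nat.testBit_and, Nat.testBit_two_pow_self, Nat.zero_testBit, Bool.and_true] at this
      exact this.symm
    · exact Nat.testBit_lt_two_pow (lt.trans_le (Nat.pow_le_pow_right (by norm_num) hj))
  have d2 : ∀ i < n, dg n V i ≤ 25644 := fun i hi => by
    have e : (2 ^ 47 + 25644) * R n - (V + 12822 * R n)
        = ∑ j ∈ range n, (2 ^ 47 + 25644 - dg n V j) * b ^ j := by
      refine Nat.sub_eq_of_eq_add ?_
      rw [← s, ← sum_add_distrib, R_eq, mul_sum]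
      refine sum_congr rfl fun j hj => ?_
      have := d1 j (mem_range.1 hj)
      rw [← add_mul, Nat.sub_add_cancel (by omega)]
    have := and_dig ((2 ^ 47 + 25644) * R n - (V + 12822 * R n)) (2 ^ 47 * R n) i
    rw [h3, T i hi, e, dig_sum b i _ _ (fun j _ => by norm_num [b]; omega) hi] at this
    have := this.trans_le Nat.and_le_left
    omega
  refine ⟨fun i => ?_, ?_, ?_⟩
  · rw [coeff_P]
    split_ifs with hi
    · have := d2 i hi
      rw [abs_le]; omega
    · simp
  · exact natDegree_le_iff_coeff_eq_zero.2 fun i hi => by rw [coeff_P, if_neg (by omega)]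
  · have : ((∑ j ∈ range n, dg n V j * b ^ j : ℕ) : ℤ) = (V + 12822 * R n : ℕ) := by rw [s]
    rw [R_eq] at this
    push_cast at this
    simp only [P, eval_finset_sum, eval_monomial, sub_mul, sum_sub_distrib, ← mul_sum, this]
    ring

theorem P_mul {n V W : ℕ} (hn : n ≤ 6000) (h1 : OK n V) (h2 : OK n W) (h3 : OK n (V * W)) :
    P n (V * W) = P n V * P n W := by
  obtain ⟨a1, a2, a3⟩ := OK_spec h1
  obtain ⟨b1, b2, b3⟩ := OK_spec h2
  obtain ⟨c1, -, c3⟩ := OK_spec h3
  refine sub_eq_zero.1 (uniq b _ _ le_rfl (fun i => ?_) (by simp [a3, b3, c3]))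
  have : |(P n V * P n W).coeff i| ≤ 12001 * (12822 * 12822) := by
    by_cases hi : i ≤ 12000
    · rw [coeff_mul]
      refine (abs_sum_le_sum_abs _ _).trans ((sum_le_card_nsmul _ _ (12822 * 12822)
        fun x _ => ?_).trans ?_)
      · rw [abs_mul]; exact mul_le_mul (a1 _) (b1 _) (abs_nonneg _) (by norm_num)
      · rw [Nat.card_antidiagonal, nsmul_eq_mul]; push_cast; omega
    · rw [coeff_eq_zero_of_natDegree_lt (natDegree_mul_le.trans_lt (by omega))]; simp
  have := c1 i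
  rw [coeff_sub]
  refine (abs_sub _ _).trans_lt ?_
  norm_num [b]; omega

theorem P_eq {n V : ℕ} (h : OK n V) (q : ℤ[X]) (h1 : ∀ i, |q.coeff i| ≤ 2)
    (h2 : q.eval (b : ℤ) = V) : P n V = q := by
  obtain ⟨a1, -, a3⟩ := OK_spec h
  refine sub_eq_zero.1 (uniq b _ _ le_rfl (fun i => ?_) (by simp [a3, h2]))
  have := a1 i
  have := h1 i
  rw [coeff_sub]
  refine (abs_sub _ _).trans_lt ?_
  norm_num [b]; omega

section gen
variable {n N : ℕ} (hn : n ≤ 6000) (hN : 0 < N) (V : ℕ → ℕ)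
  (allOK : ∀ S ⊆ N.divisors, OK n (∏ d ∈ S, V d))
  (c2 : ∀ d ∈ N.divisors, ∏ e ∈ d.divisors, V e + 1 = b ^ d)
include hn allOK

theorem P_prod (S : Finset ℕ) (h : S ⊆ N.divisors) :
    P n (∏ d ∈ S, V d) = ∏ d ∈ S, P n (V d) := by
  induction S using Finset.induction_on with
  | empty =>
    refine P_eq (allOK _ h) _ (fun i => ?_) (by simp)
    rw [prod_empty, coeff_one]; split_ifs <;> simp
  | insert a S ha ih =>
    have h1 := allOK _ h
    have h2 := allOK {a} (by simpa using h (mem_insert_self _ _))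
    have h3 : S ⊆ N.divisors := (subset_insert _ _).trans h
    rw [prod_insert ha] at h1 ⊢
    rw [prod_singleton] at h2
    rw [P_mul hn h2 (allOK _ h3) h1, ih h3, prod_insert ha]

include hN c2

theorem P_cyc (d : ℕ) : d ∈ N.divisors → P n (V d) = cyclotomic d ℤ := by
  induction d using Nat.strong_induction_on with
  | _ d ih =>
    intro hd
    have d0 := Nat.pos_of_mem_divisors hd
    have sub := Nat.divisors_subset_of_dvd hN.ne' (Nat.dvd_of_mem_divisors hd)
    have e := P_eq (allOK _ sub) (X ^ d - 1) (fun i => by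
      rw [coeff_sub, coeff_X_pow, coeff_one]; split_ifs <;> simp) (by
        have : ((∏ e ∈ d.divisors, V e + 1 : ℕ) : ℤ) = (b ^ d : ℕ) := by rw [c2 d hd]
        push_cast at this ⊢
        simp only [eval_sub, eval_pow, eval_X, eval_one]
        linarith)
    rw [P_prod hn V allOK _ sub, ← prod_cyclotomic_eq_X_pow_sub_one d0 ℤ,
      ← Nat.insert_self_properDivisors d0.ne', prod_insert Nat.self_notMem_properDivisors,
      prod_insert Nat.self_notMem_properDivisors, prod_congr rfl fun e he =>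
        ih e (Nat.mem_properDivisors.1 he).2 (sub (Nat.properDivisors_subset_divisors he))] at e
    exact mul_right_cancel₀ (prod_ne_zero_iff.2 fun e _ => cyclotomic_ne_zero e ℤ) e

theorem P_sub (S : Finset ℕ) (h : S ⊆ N.divisors) :
    P n (∏ d ∈ S, V d) = ∏ d ∈ S, cyclotomic d ℤ := by
  rw [P_prod hn V allOK S h]; exact prod_congr rfl fun d hd => P_cyc hn hN V allOK c2 d (h hd)

theorem bound (f : ℤ[X]) (h : f ∣ X ^ N - 1) (i : ℕ) : |f.coeff i| ≤ 12822 := by
  obtain ⟨g, hg⟩ := h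
  rw [← prod_cyclotomic_eq_X_pow_sub_one hN ℤ, ← one_mul (∏ _ ∈ _, _)] at hg
  obtain ⟨t, u, c, c', h1, -, h2, rfl, -⟩ := mul_eq_mul_prime_prod
    (fun d hd => (cyclotomic.irreducible (Nat.pos_of_mem_divisors hd)).prime) hg.symm
  have ht : t ⊆ N.divisors := h1 ▸ subset_union_left
  obtain ⟨r, hr, rfl⟩ := Polynomial.isUnit_iff.1 (IsUnit.of_mul_eq_one _ h2.symm)
  rw [coeff_C_mul, abs_mul, Int.isUnit_iff_abs_eq.1 hr, one_mul, ← P_sub hn hN V allOK c2 t ht]
  exact (OK_spec (allOK t ht)).1 i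

theorem attain (S : Finset ℕ) (h : S ⊆ N.divisors) (i : ℕ) (hi : i < n)
    (c4 : dg n (∏ d ∈ S, V d) i = 25644) : ∃ f : ℤ[X], f ∣ X ^ N - 1 ∧ f.coeff i = 12822 := by
  refine ⟨∏ d ∈ S, cyclotomic d ℤ, ?_, ?_⟩
  · rw [← prod_cyclotomic_eq_X_pow_sub_one hN ℤ]
    exact prod_dvd_prod_of_subset _ _ _ h
  · rw [← P_sub hn hN V allOK c2 _ h, coeff_P, c4, if_pos hi]; norm_num

end gen

def fN {α : Type} (n : ℕ) (k : ℕ → α) : α := match n with
  | 0 => k 0
  | m + 1 => k (m + 1)

theorem fN_eq {α : Type} (n : ℕ) (k : ℕ → α) : fN n k = k n := by cases n <;> rfl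

def fL {α : Type} : List ℕ → (List ℕ → α) → α
  | [], k => k []
  | a :: L, k => fN a fun a => fL L fun L => k (a :: L)

theorem fL_eq {α : Type} (L : List ℕ) (k : List ℕ → α) : fL L k = k L := by
  induction L generalizing k with
  | nil => rfl
  | cons I L ih => simp [fL, fN_eq, ih]

def chk (g : ℕ → Bool) : List ℕ → ℕ → Bool
  | [], W => g W
  | v :: l, W => chk g l W && fN (W * v) fun W => chk g l W

theorem chk_spec (g : ℕ → Bool) (V : ℕ → ℕ) (l : List ℕ) : ∀ W, chk g (l.map V) W = true →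
    ∀ S : Finset ℕ, S ⊆ l.toFinset → g (W * ∏ d ∈ S, V d) = true := by
  induction l with
  | nil => intro W h S hS; simp at hS; simpa [hS, chk] using h
  | cons a l ih =>
    intro W h S hS
    simp only [List.map_cons, chk, fN_eq, Bool.and_eq_true] at h
    rw [List.toFinset_cons] at hS
    by_cases ha : a ∈ S
    · rw [← mul_prod_erase _ _ ha, ← mul_assoc]
      exact ih _ h.2 _ (subset_insert_iff.1 hS)
    · exact ih _ h.1 _ ((subset_insert_iff_of_notMem ha).1 hS)

def V (d : ℕ) : ℕ :=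
  ([1, 35, 65, 91].map fun k => if d % k = 0 then b ^ (d / k) - 1 else 1).prod /
    ([5, 7, 13, 455].map fun k => if d % k = 0 then b ^ (d / k) - 1 else 1).prod

def D : List ℕ := [5915, 1183, 845, 455, 169, 91, 65, 35, 13, 7, 5, 1]

def all (n : ℕ) (L : List ℕ) : Bool :=
  fN (12822 * R n) fun BR => fN (b ^ n) fun TOP => fN (2 ^ 47 * R n) fun T =>
    fN ((2 ^ 47 + 25644) * R n) fun CR => fL L fun L => chk (ok BR TOP T CR) L 1

theorem all_spec (n : ℕ) (V : ℕ → ℕ) (l : List ℕ) (h : all n (l.map V) = true) (S : Finset ℕ)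
    (hS : S ⊆ l.toFinset) : OK n (∏ d ∈ S, V d) := by
  simp only [all, fN_eq, fL_eq] at h
  have := chk_spec _ V l 1 h S hS
  rwa [one_mul] at this

theorem c1 : all 5916 (D.map V) = true := by decide +kernel

theorem c2 : ∀ d ∈ Nat.divisors 5915, ∏ e ∈ d.divisors, V e + 1 = b ^ d := by decide +kernel

theorem c3 : D.toFinset = Nat.divisors 5915 := by decide +kernel

theorem c4 : dg 5916 (∏ d ∈ {5, 7, 13, 455, 845, 1183}, V d) 597 = 25644 := by decide +kernel

theorem c5 : ({5, 7, 13, 455, 845, 1183} : Finset ℕ) ⊆ Nat.divisors 5915 := by decide +kernel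

theorem allOK (S : Finset ℕ) (h : S ⊆ Nat.divisors 5915) : OK 5916 (∏ d ∈ S, V d) :=
  all_spec 5916 V D c1 S (h.trans c3.ge)

theorem fin : (∀ f : ℤ[X], f ∣ X ^ 5915 - 1 → ∀ i, |f.coeff i| ≤ 12822) ∧
    ∃ f : ℤ[X], f ∣ X ^ 5915 - 1 ∧ f.coeff 597 = 12822 :=
  ⟨bound (by norm_num) (by norm_num) V allOK c2,
    attain (by norm_num) (by norm_num) V allOK c2 _ c5 597 (by norm_num) c4⟩

end Pool.Agent.H.MP_68ef1b_nt
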